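import Pool.Agent.Q80.KT.Stm

/-!
Project KT (helper80, MP_7f4e92_pr), job T2: two tree components.
-/

open Finset MeasureTheory Filter Topology
open scoped Classical ENNReal NNReal

noncomputable section

namespace Q182.KT.T2

open Pool.Agent.Q80.KT Pool.Agent.Q287.SR

theorem ind_and (P Q : Prop) : ind (P ∧ Q) = ind P * ind Q := by
  unfold ind
  by_cases hP : P <;> by_cases hQ : Q <;> simp [hP, hQ]

theorem of_ind_ne {P : Prop} (h : ind P ≠ 0) : P := by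
  by_contra hP
  exact h (by unfold ind; rw [if_neg hP])

/-- the pairs meeting `S` -/
def M {n : ℕ} (S : Finset (Fin n)) : Set (Sym2 (Fin n)) := {e | ∃ a ∈ e, a ∈ S}

theorem treeComp_mono {n : ℕ} (S : Finset (Fin n)) (G G' : SimpleGraph (Fin n))
    (h : ∀ e ∈ M S, (e ∈ G.edgeSet ↔ e ∈ G'.edgeSet)) (ht : TreeComp G S) : TreeComp G' S := by
  have hadj : ∀ a ∈ S, ∀ b, G.Adj a b ↔ G'.Adj a b := by
    intro a ha b
    have h1 := h s(a, b) ⟨a, Sym2.mem_mk_left a b, ha⟩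
    rwa [SimpleGraph.mem_edgeSet, SimpleGraph.mem_edgeSet] at h1
  have hind : G.induce (S : Set (Fin n)) = G'.induce (S : Set (Fin n)) := by
    ext a b
    exact hadj a.1 (Finset.mem_coe.1 a.2) b.1
  obtain ⟨h1, h2⟩ := ht
  rw [hind] at h1
  refine ⟨h1, fun a ha b hb => ?_⟩
  rw [← hadj a ha b]
  exact h2 a ha b hb

theorem depOn {n : ℕ} (S : Finset (Fin n)) :
    DepOn (M S) fun G : SimpleGraph (Fin n) => ind (TreeComp G S) := by
  intro G G' h
  have h1 : TreeComp G S ↔ TreeComp G' S :=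
    ⟨treeComp_mono S G G' h, treeComp_mono S G' G fun e he => (h e he).symm⟩
  show ind (TreeComp G S) = ind (TreeComp G' S)
  rw [propext h1]

/-- the pairs between `S` and `T` -/
def O {n : ℕ} (S T : Finset (Fin n)) : Finset (Sym2 (Fin n)) :=
  (S ×ˢ T).image fun x => s(x.1, x.2)

theorem mem_O {n : ℕ} {S T : Finset (Fin n)} (e : Sym2 (Fin n)) :
    e ∈ O S T ↔ ∃ a ∈ S, ∃ b ∈ T, e = s(a, b) := by
  unfold O
  rw [mem_image]
  constructor
  · rintro ⟨⟨a, b⟩, h, rfl⟩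
    rw [mem_product] at h
    exact ⟨a, h.1, b, h.2, rfl⟩
  · rintro ⟨a, ha, b, hb, rfl⟩
    exact ⟨(a, b), mem_product.2 ⟨ha, hb⟩, rfl⟩

theorem ne_of {n : ℕ} {S T : Finset (Fin n)} (h : Disjoint S T) {a b : Fin n} (ha : a ∈ S)
    (hb : b ∈ T) : a ≠ b := by
  rintro rfl
  exact (Finset.disjoint_left.1 h) ha hb

theorem O_sub {n : ℕ} {S T : Finset (Fin n)} (h : Disjoint S T) : O S T ⊆ pairs n := by
  intro e he
  obtain ⟨a, ha, b, hb, rfl⟩ := (mem_O e).1 he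
  unfold pairs
  rw [mem_filter, Sym2.mk_isDiag_iff]
  exact ⟨mem_univ _, ne_of h ha hb⟩

theorem card_O {n : ℕ} {S T : Finset (Fin n)} (h : Disjoint S T) :
    (O S T).card = S.card * T.card := by
  unfold O
  rw [card_image_of_injOn, card_product]
  rintro ⟨a, b⟩ hx ⟨c, d⟩ hy hxy
  rw [mem_coe, mem_product] at hx hy
  simp only [Sym2.eq_iff] at hxy
  rcases hxy with ⟨h1, h2⟩ | ⟨h1, h2⟩
  · exact Prod.ext h1 h2
  · exact absurd h1 (ne_of h hx.1 hy.2)

theorem mem_iff {n : ℕ} {S T : Finset (Fin n)} (h : Disjoint S T) (e : Sym2 (Fin n)) :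
    e ∈ O S T ↔ e ∈ M S ∧ e ∈ M T := by
  rw [mem_O]
  constructor
  · rintro ⟨a, ha, b, hb, rfl⟩
    exact ⟨⟨a, Sym2.mem_mk_left a b, ha⟩, ⟨b, Sym2.mem_mk_right a b, hb⟩⟩
  · rintro ⟨⟨a, hae, ha⟩, ⟨b, hbe, hb⟩⟩
    exact ⟨a, ha, b, hb, (Sym2.mem_and_mem_iff (ne_of h ha hb)).1 ⟨hae, hbe⟩⟩

theorem t_T2 (h1 : S_OVL) : S_T2 := by
  intro n p S T hST
  have h := h1 n p (M S) (M T) (O S T) (fun G => ind (TreeComp G S))
    (fun G => ind (TreeComp G T)) (O_sub hST) (fun e _ => mem_iff hST e) (depOn S) (depOn T)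
    (by
      intro G hG e he
      obtain ⟨a, ha, b, hb, rfl⟩ := (mem_O e).1 he
      rw [SimpleGraph.mem_edgeSet]
      exact (of_ind_ne hG).2 a ha b (fun hbS => (Finset.disjoint_left.1 hST) hbS hb))
    (by
      intro G hG e he
      obtain ⟨a, ha, b, hb, rfl⟩ := (mem_O e).1 he
      rw [SimpleGraph.mem_edgeSet]
      intro hab
      exact (of_ind_ne hG).2 b hb a (fun haT => (Finset.disjoint_left.1 hST) ha haT) hab.symm)
  rw [card_O hST] at h
  unfold Pr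
  simp only [ind_and]
  exact h

end Q182.KT.T2
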