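import Pool.Agent.Q234.KT.Stm

/-!
# Project KT (helper234), job WT (helper182): from the norm of `g` to the hypothesis of CapS
-/

set_option autoImplicit false

open scoped BigOperators
open Finset

namespace Pool.Agent.Q182.KT.WT

open Pool.Agent.Q234.KT

lemma norm_sg (a : Fin 2) : ‖sg a‖ = 1 := by
  unfold sg
  split_ifs <;> simp

lemma norm_ch {V : Type} [Fintype V] [DecidableEq V] (X : Finset V) (σ : V → Fin 2) :
    ‖ch X σ‖ = 1 := by
  unfold ch
  rw [norm_prod]
  exact prod_eq_one fun v _ => norm_sg _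

lemma sum_k (N : ℕ) : ∑ k ∈ range N, (k : ℝ) * (1 / 4) ^ k =
    4 / 9 * (1 - (3 * N + 1) * (1 / 4) ^ N) := by
  induction N with
  | zero => simp
  | succ n ih =>
    rw [sum_range_succ, ih, pow_succ]
    push_cast
    ring

section

variable {V : Type} [Fintype V] [DecidableEq V] (h : Finset V → Finset V) (r : ℝ)
  (g : Finset V → ℂ)

/-- the sum over the sets with the hull `S` -/
lemma fib (hr : 1 ≤ r) (hsub : ∀ X, X ⊆ h X)
    (hnb : ∀ x, nb r (fun X => (h X).card) x g ≤ 1 / 4) (T : Finset (Finset V)) (S : Finset V)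
    (hT : ∀ X ∈ T, X.Nonempty ∧ h X = S) :
    ∑ X ∈ T, ‖g X‖ * r ^ S.card ≤ S.card * (1 / 4) := by
  have hr0 : 0 < r := by linarith
  have h1 : ∀ X ∈ T, ‖g X‖ * r ^ S.card ≤
      ∑ x ∈ S, if x ∈ X then (X.card : ℝ) * ‖g X‖ * r ^ (h X).card else 0 := by
    intro X hX
    obtain ⟨⟨x, hx⟩, hXS⟩ := hT X hX
    have hxS : x ∈ S := by
      rw [← hXS]
      exact hsub X hx
    have hc : (1 : ℝ) ≤ X.card := by
      have : 1 ≤ X.card := card_pos.2 ⟨x, hx⟩
      exact_mod_cast this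
    have h2 : (if x ∈ X then (X.card : ℝ) * ‖g X‖ * r ^ (h X).card else 0) ≤
        ∑ x ∈ S, if x ∈ X then (X.card : ℝ) * ‖g X‖ * r ^ (h X).card else 0 := by
      apply single_le_sum (f := fun x => if x ∈ X then (X.card : ℝ) * ‖g X‖ * r ^ (h X).card else 0)
        _ hxS
      intro y _
      show (0 : ℝ) ≤ if y ∈ X then (X.card : ℝ) * ‖g X‖ * r ^ (h X).card else 0
      split_ifs
      · positivity
      · exact le_rfl
    refine le_trans ?_ h2
    rw [if_pos hx, hXS]
    have h3 : 0 ≤ ‖g X‖ * r ^ S.card := by positivity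
    nlinarith
  refine (sum_le_sum h1).trans ?_
  rw [sum_comm]
  have h4 : ∀ x ∈ S, ∑ X ∈ T, (if x ∈ X then (X.card : ℝ) * ‖g X‖ * r ^ (h X).card else 0) ≤
      1 / 4 := by
    intro x _
    refine le_trans ?_ (hnb x)
    unfold nb
    rw [← sum_filter]
    apply sum_le_sum_of_subset_of_nonneg
    · intro X hX
      rw [mem_filter] at hX ⊢
      exact ⟨mem_univ _, hX.2⟩
    · intro X _ _
      positivity
  refine (sum_le_sum h4).trans (le_of_eq ?_)
  rw [sum_const, nsmul_eq_mul]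

end

theorem main : WtS := by
  intro V _ _ h a r q g ha hq hr hsub hcnt hnb σ v
  have ha1 : (1 : ℝ) ≤ a := by exact_mod_cast ha
  have haq : (1 : ℝ) ≤ a * q := by nlinarith
  have hr8 : 8 ≤ r := by nlinarith
  have hr0 : 0 < r := by linarith
  have hr1 : 1 ≤ r := by linarith
  have hq0 : 0 < q := by linarith
  -- the norms of the coefficients
  have hg1 : ∀ X : Finset V, X.Nonempty → ‖g X‖ ≤ 1 := by
    intro X hX
    have h1 := fib h r g hr1 hsub hnb {X} (h X) (by
      intro Y hY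
      rw [mem_singleton] at hY
      rw [hY]
      exact ⟨hX, rfl⟩)
    obtain ⟨x, hx⟩ := hX
    have h2 : (X.card : ℝ) * ‖g X‖ * r ^ (h X).card ≤ 1 / 4 := by
      refine le_trans ?_ (hnb x)
      unfold nb
      apply single_le_sum (f := fun X : Finset V => (X.card : ℝ) * ‖g X‖ * r ^ (h X).card)
      · intro Y _
        positivity
      · rw [mem_filter]
        exact ⟨mem_univ _, hx⟩
    have hc : (1 : ℝ) ≤ X.card := by
      have : 1 ≤ X.card := card_pos.2 ⟨x, hx⟩
      exact_mod_cast this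
    have hp : (1 : ℝ) ≤ r ^ (h X).card := one_le_pow₀ hr1
    have h3 : ‖g X‖ * 1 ≤ ‖g X‖ * r ^ (h X).card :=
      mul_le_mul_of_nonneg_left hp (norm_nonneg _)
    have h4 : 1 * (‖g X‖ * r ^ (h X).card) ≤ X.card * (‖g X‖ * r ^ (h X).card) :=
      mul_le_mul_of_nonneg_right hc (by positivity)
    linarith
  -- the first estimate
  have hterm : ∀ X : {X : Finset V // X.Nonempty},
      ‖Complex.exp (g X.1 * ch X.1 σ) - 1‖ * (2 * q) ^ (h X.1).card ≤
        2 * ‖g X.1‖ * (2 * q) ^ (h X.1).card := by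
    intro X
    have h1 : ‖g X.1 * ch X.1 σ‖ = ‖g X.1‖ := by rw [norm_mul, norm_ch, mul_one]
    have h2 := Complex.norm_exp_sub_one_le (x := g X.1 * ch X.1 σ) (by
      rw [h1]
      exact hg1 X.1 X.2)
    rw [h1] at h2
    exact mul_le_mul_of_nonneg_right h2 (by positivity)
  refine (sum_le_sum fun X _ => hterm X).trans ?_
  -- pass to a set of sets
  obtain ⟨T, hT⟩ : ∃ T : Finset (Finset V), T =
      (univ.filter (fun X : {X : Finset V // X.Nonempty} => v ∈ h X.1)).map
        (Function.Embedding.subtype _) := ⟨_, rfl⟩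
  have hTm : ∀ X ∈ T, X.Nonempty ∧ v ∈ h X := by
    intro X hX
    rw [hT, mem_map] at hX
    obtain ⟨Y, hY, rfl⟩ := hX
    rw [mem_filter] at hY
    exact ⟨Y.2, hY.2⟩
  have hsumT : ∑ X ∈ univ.filter (fun X : {X : Finset V // X.Nonempty} => v ∈ h X.1),
      2 * ‖g X.1‖ * (2 * q) ^ (h X.1).card = ∑ X ∈ T, 2 * ‖g X‖ * (2 * q) ^ (h X).card := by
    rw [hT, sum_map]
    rfl
  rw [hsumT]
  -- fibers over the hulls
  obtain ⟨A, hA⟩ : ∃ A : Finset (Finset V), A = (univ.image h).filter (fun S => v ∈ S) := ⟨_, rfl⟩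
  have hmaps : ∀ X ∈ T, h X ∈ A := by
    intro X hX
    rw [hA, mem_filter]
    exact ⟨mem_image_of_mem h (mem_univ X), (hTm X hX).2⟩
  rw [← sum_fiberwise_of_maps_to hmaps]
  have hfib : ∀ S ∈ A, ∑ X ∈ T.filter (fun X => h X = S), 2 * ‖g X‖ * (2 * q) ^ (h X).card ≤
      1 / 2 * ((S.card : ℝ) * (2 * q / r) ^ S.card) := by
    intro S _
    have h1 := fib h r g hr1 hsub hnb (T.filter (fun X => h X = S)) S (by
      intro X hX
      rw [mem_filter] at hX
      exact ⟨(hTm X hX.1).1, hX.2⟩)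
    have h2 : ∑ X ∈ T.filter (fun X => h X = S), 2 * ‖g X‖ * (2 * q) ^ (h X).card =
        (2 * (2 * q / r) ^ S.card) * ∑ X ∈ T.filter (fun X => h X = S), ‖g X‖ * r ^ S.card := by
      rw [mul_sum]
      apply sum_congr rfl
      intro X hX
      rw [mem_filter] at hX
      rw [hX.2, div_pow]
      have : r ^ S.card ≠ 0 := by positivity
      field_simp
    rw [h2]
    have h3 := mul_le_mul_of_nonneg_left h1 (show (0 : ℝ) ≤ 2 * (2 * q / r) ^ S.card by positivity)
    refine h3.trans (le_of_eq ?_)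
    ring
  refine (sum_le_sum hfib).trans ?_
  -- fibers over the sizes
  have hmaps2 : ∀ S ∈ A, S.card ∈ range (Fintype.card V + 1) := by
    intro S _
    rw [mem_range]
    have := card_le_univ S
    omega
  rw [← sum_fiberwise_of_maps_to hmaps2]
  have hlev : ∀ k ∈ range (Fintype.card V + 1),
      ∑ S ∈ A.filter (fun S => S.card = k), 1 / 2 * ((S.card : ℝ) * (2 * q / r) ^ S.card) ≤
        1 / 2 * ((k : ℝ) * (1 / 4) ^ k) := by
    intro k _
    have h1 : ∑ S ∈ A.filter (fun S => S.card = k), 1 / 2 * ((S.card : ℝ) * (2 * q / r) ^ S.card) =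
        ((A.filter (fun S => S.card = k)).card : ℝ) * (1 / 2 * ((k : ℝ) * (2 * q / r) ^ k)) := by
      rw [← nsmul_eq_mul, ← sum_const]
      apply sum_congr rfl
      intro S hS
      rw [mem_filter] at hS
      rw [hS.2]
    rw [h1]
    have h2 : ((A.filter (fun S => S.card = k)).card : ℝ) ≤ (a : ℝ) ^ k := by
      have h3 : A.filter (fun S => S.card = k) =
          (univ.image h).filter (fun S => v ∈ S ∧ S.card = k) := by
        rw [hA, filter_filter]
      rw [h3]
      exact_mod_cast hcnt v k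
    have h4 : (0 : ℝ) ≤ 1 / 2 * ((k : ℝ) * (2 * q / r) ^ k) := by positivity
    refine (mul_le_mul_of_nonneg_right h2 h4).trans ?_
    have h5 : (a : ℝ) ^ k * (2 * q / r) ^ k ≤ (1 / 4) ^ k := by
      rw [← mul_pow]
      apply pow_le_pow_left₀ (by positivity)
      rw [mul_div_assoc', div_le_div_iff₀ hr0 (by norm_num)]
      linarith
    have hk0 : (0 : ℝ) ≤ k := Nat.cast_nonneg k
    have h6 := mul_le_mul_of_nonneg_left h5 hk0
    calc (a : ℝ) ^ k * (1 / 2 * ((k : ℝ) * (2 * q / r) ^ k))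
        = 1 / 2 * ((k : ℝ) * ((a : ℝ) ^ k * (2 * q / r) ^ k)) := by ring
      _ ≤ 1 / 2 * ((k : ℝ) * (1 / 4) ^ k) := by linarith
  refine (sum_le_sum hlev).trans ?_
  rw [← mul_sum, sum_k]
  have : 0 ≤ (3 * ((Fintype.card V + 1 : ℕ) : ℝ) + 1) * (1 / 4) ^ (Fintype.card V + 1) := by
    positivity
  linarith

end Pool.Agent.Q182.KT.WT
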